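import Pool.Agent.H67EF.Col

set_option autoImplicit false

namespace Pool.Agent.Results.MP_54bae5_nt.HahnPartition

open Finset

/-- `x` is represented by elements of `A` divisible by `d`, arbitrarily far out. -/
def Far (A : Set ℕ) (d : ℕ) (x : ℚ) : Prop :=
  ∀ N : ℕ, ∃ F : Finset ℕ, F.Nonempty ∧ (∀ n ∈ F, N < n ∧ d ∣ n ∧ n ∈ A) ∧
    ∑ n ∈ F, (1 / n : ℚ) = x

theorem Far.add {A : Set ℕ} {d : ℕ} {x y : ℚ} (hx : Far A d x) (hy : Far A d y) :
    Far A d (x + y) := by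
  intro N
  obtain ⟨F, hF, hF1, hF2⟩ := hx N
  obtain ⟨G, hG, hG1, hG2⟩ := hy (max N (F.sup id))
  refine ⟨F ∪ G, hF.mono subset_union_left, ?_, ?_⟩
  · intro n hn
    rcases mem_union.1 hn with h | h
    · exact hF1 n h
    · obtain ⟨h1, h2⟩ := hG1 n h
      exact ⟨lt_of_le_of_lt (le_max_left _ _) h1, h2⟩
  · rw [sum_union, hF2, hG2]
    rw [disjoint_left]
    intro n hn hn'
    have h1 := (hG1 n hn').1
    have h2 : n ≤ F.sup id := le_sup (f := id) hn
    exact absurd (lt_of_le_of_lt (le_max_right _ _) h1) (not_lt.2 h2)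

theorem Far.mul {A : Set ℕ} {d : ℕ} {x : ℚ} (hx : Far A d x) (c : ℕ) :
    Far A d (((c + 1 : ℕ) : ℚ) * x) := by
  induction c with
  | zero => simpa using hx
  | succ c ih =>
    have h := ih.add hx
    have e : ((c + 1 : ℕ) : ℚ) * x + x = ((c + 1 + 1 : ℕ) : ℚ) * x := by
      push_cast
      ring
    rwa [e] at h

theorem Far.of_dvd {A : Set ℕ} {d d' : ℕ} {x : ℚ} (hx : Far A d x) (h : d' ∣ d) : Far A d' x := by
  intro N
  obtain ⟨F, hF, hF1, hF2⟩ := hx N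
  exact ⟨F, hF, fun n hn => ⟨(hF1 n hn).1, h.trans (hF1 n hn).2.1, (hF1 n hn).2.2⟩, hF2⟩

theorem exists_far (k : ℕ) (C : Fin k → Set ℕ) (c : ℕ → Fin k) (hc : ∀ n, 0 < n → n ∈ C (c n))
    (T : ℕ) (hT : ∀ N0 : ℕ, ∀ c : ℕ → Fin k, ∃ i : Fin k,
      ∃ S : Finset ℕ, S.Nonempty ∧ (∀ n ∈ S, N0 < n ∧ c n = i) ∧
        ∃ m : ℕ, 1 ≤ m ∧ m ≤ T ∧ ∑ n ∈ S, (1 / n : ℚ) = m) (m : ℕ) (hm : 0 < m) :
    ∃ i : Fin k, ∃ t : ℕ, 1 ≤ t ∧ t ≤ T ∧ Far (C i) m (t / m : ℚ) := by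
  have h1 : ∀ N : ℕ, ∃ y : Fin k × Fin (T + 1), 1 ≤ (y.2 : ℕ) ∧
      ∃ F : Finset ℕ, F.Nonempty ∧ (∀ n ∈ F, N < n ∧ m ∣ n ∧ n ∈ C y.1) ∧
        ∑ n ∈ F, (1 / n : ℚ) = ((y.2 : ℕ) / m : ℚ) := by
    intro N
    obtain ⟨i, S, hS, hS1, t, ht1, htT, hS2⟩ := hT N (fun n => c (m * n))
    refine ⟨(i, ⟨t, by omega⟩), ht1, S.image (fun n => m * n), hS.image _, ?_, ?_⟩
    · intro v hv
      obtain ⟨n, hn, rfl⟩ := mem_image.1 hv
      obtain ⟨h2, h3⟩ := hS1 n hn
      refine ⟨lt_of_lt_of_le h2 (Nat.le_mul_of_pos_left n hm), Dvd.intro _ rfl, ?_⟩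
      have h4 := hc (m * n) (Nat.mul_pos hm (by omega))
      rw [h3] at h4
      exact h4
    · rw [sum_image (fun a _ b _ h => Nat.eq_of_mul_eq_mul_left hm h)]
      simp only
      rw [← hS2, sum_div]
      refine sum_congr rfl fun n _ => ?_
      push_cast
      rw [one_div, mul_inv, one_div, div_eq_mul_inv]
      ring
  choose y hy1 hy2 using h1
  obtain ⟨⟨i, t⟩, hit⟩ := Finite.exists_infinite_fiber y
  have hinf : (y ⁻¹' {(i, t)}).Infinite := Set.infinite_coe_iff.1 hit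
  obtain ⟨N1, hN1, _⟩ := hinf.exists_gt 0
  refine ⟨i, t, ?_, by omega, ?_⟩
  · have := hy1 N1
    rwa [show y N1 = (i, t) from hN1] at this
  · intro N
    obtain ⟨N', hN', hlt⟩ := hinf.exists_gt N
    obtain ⟨F, hF, hF1, hF2⟩ := hy2 N'
    rw [show y N' = (i, t) from hN'] at hF1 hF2
    exact ⟨F, hF, fun n hn => ⟨lt_trans hlt (hF1 n hn).1, (hF1 n hn).2⟩, hF2⟩

/-- Hahn's question, answered positively: for every finite partition (indeed every finite cover)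
of the positive integers, a single class represents every positive rational as a sum of distinct
unit fractions, and it does so with denominators beyond any bound `N` and divisible by any
given `d`. -/
theorem result (k : ℕ) (C : Fin k → Set ℕ) (hC : ∀ n, 0 < n → ∃ i, n ∈ C i) :
    ∃ i, ∀ q : ℚ, 0 < q → ∀ d N : ℕ, 0 < d → ∃ F : Finset ℕ, F.Nonempty ∧
      (∀ n ∈ F, N < n ∧ d ∣ n ∧ n ∈ C i) ∧ ∑ n ∈ F, (1 / n : ℚ) = q := by
  classical
  obtain ⟨i0, _⟩ := hC 1 one_pos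
  have hk : 1 ≤ k := by
    have := i0.2
    omega
  have h0 : ∀ n, ∃ i, 0 < n → n ∈ C i := by
    intro n
    rcases Nat.eq_zero_or_pos n with h | h
    · exact ⟨i0, fun h' => absurd h' (by omega)⟩
    · obtain ⟨i, hi⟩ := hC n h
      exact ⟨i, fun _ => hi⟩
  choose c hc using h0
  obtain ⟨T, hT⟩ := Pool.Agent.H67EF.core k hk
  have h1 : ∀ j : ℕ, ∃ i : Fin k, ∃ t : ℕ, 1 ≤ t ∧ t ≤ T ∧
      Far (C i) (j.factorial * T.factorial) (t / (j.factorial * T.factorial : ℕ) : ℚ) :=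
    fun j => exists_far k C c hc T hT _ (Nat.mul_pos (Nat.factorial_pos _) (Nat.factorial_pos _))
  choose f t ht1 htT hfar using h1
  obtain ⟨i, hi⟩ := Finite.exists_infinite_fiber f
  have hinf : (f ⁻¹' {i}).Infinite := Set.infinite_coe_iff.1 hi
  refine ⟨i, fun q hq d N hd => ?_⟩
  obtain ⟨j, hj, hlt⟩ := hinf.exists_gt (max q.den d)
  have hj' : f j = i := hj
  have hjq : q.den ≤ j := (le_max_left _ _).trans hlt.le
  have hjd : d ≤ j := (le_max_right _ _).trans hlt.le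
  have h2 := hfar j
  rw [hj'] at h2
  obtain ⟨a, ha⟩ : q.den ∣ j.factorial := Nat.dvd_factorial q.den_pos hjq
  obtain ⟨b, hb⟩ : t j ∣ T.factorial := Nat.dvd_factorial (ht1 j) (htT j)
  have h3 : Far (C i) d (t j / (j.factorial * T.factorial : ℕ) : ℚ) :=
    h2.of_dvd ((Nat.dvd_factorial hd hjd).mul_right _)
  have hnum : 0 < q.num := Rat.num_pos.2 hq
  obtain ⟨e, he⟩ := Int.eq_ofNat_of_zero_le hnum.le
  have he0 : 0 < e := by
    have : (0 : ℤ) < e := by rw [← he]; exact hnum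
    exact_mod_cast this
  have ha0 : 0 < a := by
    rcases Nat.eq_zero_or_pos a with h | h
    · rw [h, mul_zero] at ha
      exact absurd ha (Nat.factorial_ne_zero j)
    · exact h
  have hb0 : 0 < b := by
    rcases Nat.eq_zero_or_pos b with h | h
    · rw [h, mul_zero] at hb
      exact absurd hb (Nat.factorial_ne_zero T)
    · exact h
  have h4 := h3.mul (e * a * b - 1)
  have h5 : e * a * b - 1 + 1 = e * a * b := Nat.sub_add_cancel (Nat.mul_pos (Nat.mul_pos he0 ha0) hb0)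
  rw [h5] at h4
  have h6 : (((e * a * b : ℕ) : ℚ) * (t j / (j.factorial * T.factorial : ℕ) : ℚ)) = q := by
    rw [ha, hb]
    have hq1 : q = (e : ℚ) / q.den := by
      conv_lhs => rw [← Rat.num_div_den q]
      rw [he]
      push_cast
      rfl
    have hden : (q.den : ℚ) ≠ 0 := by exact_mod_cast q.den_pos.ne'
    have ha1 : (a : ℚ) ≠ 0 := by exact_mod_cast ha0.ne'
    have hb1 : (b : ℚ) ≠ 0 := by exact_mod_cast hb0.ne'
    have ht1' : (t j : ℚ) ≠ 0 := by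
      have := ht1 j
      have : t j ≠ 0 := by omega
      exact_mod_cast this
    conv_rhs => rw [hq1]
    push_cast
    field_simp
  rw [h6] at h4
  exact h4 N

end Pool.Agent.Results.MP_54bae5_nt.HahnPartition
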